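import Pool.Agent.Helper46.RO.Base

/-!
# Two different ends agree exactly up to a finite level
-/

set_option autoImplicit false

namespace Pool.Agent.Helper72.RO

open Pool.Agent.Helper46.RO

universe u

theorem comp_eq {L : Type u} [Group L] {X : Finset L} {χ : L → ℝ} (hX : SymGen X)
    {C : ℝ → Set L} (hC : IsEnd X χ C) {s : ℝ} {g : L} (hg : g ∈ C s) :
    C s = {h | h ∈ up χ s ∧ Conn X (up χ s) g h} := by
  obtain ⟨g₀, _, h1⟩ := hC.1 s
  rw [h1] at hg ⊢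
  ext h
  constructor
  · rintro ⟨h2, h3⟩
    exact ⟨h2, (Conn.symm hX hg.2).trans h3⟩
  · rintro ⟨h2, h3⟩
    exact ⟨h2, hg.2.trans h3⟩

theorem nonempty_end {L : Type u} [Group L] {X : Finset L} {χ : L → ℝ}
    {C : ℝ → Set L} (hC : IsEnd X χ C) (s : ℝ) : ∃ g, g ∈ C s := by
  obtain ⟨g, hg, h1⟩ := hC.1 s
  exact ⟨g, by rw [h1]; exact ⟨hg, Conn.refl _⟩⟩

theorem E3 : GoalE3.{u} := by
  intro L _ X χ hX _ C C' hC hC'
  have h1 : ∀ s s', s ≤ s' → C s' = C' s' → C s = C' s := by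
    intro s s' hs h
    obtain ⟨g, hg⟩ := nonempty_end hC s'
    have hg' : g ∈ C' s' := h ▸ hg
    rw [comp_eq hX hC (hC.2 s s' hs hg), comp_eq hX hC' (hC'.2 s s' hs hg')]
  refine ⟨h1, ?_, ?_⟩
  · obtain ⟨g, hg⟩ := nonempty_end hC 0
    obtain ⟨g', hg'⟩ := nonempty_end hC' 0
    obtain ⟨s₀, _, _, hc⟩ := exists_level hX χ g g'
    have m1 : min s₀ 0 ≤ 0 := min_le_right _ _
    have m2 : min s₀ 0 ≤ s₀ := min_le_left _ _
    have hc' : Conn X (up χ (min s₀ 0)) g g' :=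
      hc.mono (fun k hk => le_trans m2 hk)
    refine ⟨min s₀ 0, ?_⟩
    change C (min s₀ 0) = C' (min s₀ 0)
    rw [comp_eq hX hC (hC.2 _ _ m1 hg), comp_eq hX hC' (hC'.2 _ _ m1 hg')]
    ext h
    constructor
    · rintro ⟨h2, h3⟩
      exact ⟨h2, (Conn.symm hX hc').trans h3⟩
    · rintro ⟨h2, h3⟩
      exact ⟨h2, hc'.trans h3⟩
  · intro hne
    by_contra hb
    apply hne
    funext s
    rw [bddAbove_def] at hb
    push Not at hb
    obtain ⟨s', hs', hlt⟩ := hb s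
    exact h1 s s' hlt.le hs'

end Pool.Agent.Helper72.RO
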